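import Pool.Agent.H60.LQ.Cfg

/-!
# LQ, row AYY2: lower bound for the entropy of `Y`
-/

set_option autoImplicit false

namespace Pool.LQ

open Finset Real
open Pool.Agent.H49.Ent Pool.Agent.H32.Dense Pool.KTH

namespace Ayy2Aux

variable {d J : ℕ}

lemma C₂_det (F : Cf d J) {w w' : F.Ω} (hw : 0 < F.q w) (hw' : 0 < F.q w')
    (hv : F.v₂ w = F.v₂ w') (hZ : F.Z w = F.Z w') (ht : F.tr w = F.tr w') :
    F.C₂ w = F.C₂ w' := by
  have hu : F.u₂ w = F.u₂ w' := F.hu₂ w w' hw hw' (Prod.ext hv hZ)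
  unfold Cf.C₂ pp
  rw [hu, hv, ht]

lemma P_det (F : Cf d J) {w w' : F.Ω} (hw : 0 < F.q w) (hw' : 0 < F.q w')
    (hv : F.v₁ w = F.v₁ w') (hZ : F.Z w = F.Z w') (ht : F.t w = F.t w') :
    F.P w = F.P w' := by
  have hu : F.u₁ w = F.u₁ w' := F.hu₁ w w' hw hw' (Prod.ext hv hZ)
  unfold Cf.P pp
  rw [F.cross01 w hw, F.cross01 w' hw', hu, hv, ht]

end Ayy2Aux

open Ayy2Aux in
theorem ayy2 (hD : DIR2Stmt) (hU : UFD2Stmt) : AYY2Stmt := by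
  intro d
  obtain ⟨C1, hC1, h1⟩ := hD d
  obtain ⟨C2, hC2, h2⟩ := (hU d).2.1
  refine ⟨C1 + C2, by positivity, ?_⟩
  intro J F L sb K G hok
  have a1 := h1 J F
  have a2 := h2 J F L sb K G hok
  have a3 : C1 * (en F + 1 + Real.log ((J : ℝ) + 2)) ≤ C1 * (G + 1 + Real.log ((J : ℝ) + 2)) :=
    mul_le_mul_of_nonneg_left (by have := hok.ge; linarith) hC1
  have b1 : CH F.q (fun w => (F.Y w, F.C₂ w)) F.Z ≤ F.yh + CH F.q F.C₂ F.Z :=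
    CH_subadd F.hq F.Y F.C₂ F.Z
  have b2 := hok.sC₂
  have b3 : CH F.q (fun w => (F.c₂ w, (F.v₁ w, F.C₂ w))) F.Z ≤
      CH F.q (fun w => (F.v₁ w, (F.Y w, F.C₂ w))) F.Z := by
    refine CH_mono_left F.hq ?_
    intro w w' _ _ h
    simp only [Prod.mk.injEq] at h ⊢
    have hy : F.tr w + F.c₂ w = F.tr w' + F.c₂ w' := congrArg Prod.fst h.1.2.1
    have hc : F.tr w = F.tr w' := congrArg Prod.fst h.1.2.2
    exact ⟨by omega, h.1.1, h.1.2.2⟩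
  have b4 : CH F.q (fun w => (F.v₁ w, (F.Y w, F.C₂ w))) F.Z =
      CH F.q (fun w => (F.Y w, F.C₂ w)) F.Z +
        CH F.q F.v₁ (fun w => ((F.Y w, F.C₂ w), F.Z w)) :=
    CH_chain F.hq F.v₁ (fun w => (F.Y w, F.C₂ w)) F.Z
  have b5 : CH F.q F.v₁ (fun w => ((F.Y w, F.C₂ w), F.Z w)) ≤
      CH F.q F.v₁ (fun w => (F.Y w, F.C₂ w, F.Z w)) := by
    refine CH_mono_cond F.hq ?_
    intro w w' _ _ h
    simp only [Prod.mk.injEq] at h ⊢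
    exact ⟨h.1.1, h.1.2, h.2⟩
  have b6 : CH F.q (fun w => (F.c₂ w, (F.v₁ w, F.C₂ w))) F.Z =
      CH F.q (fun w => (F.v₁ w, F.C₂ w)) F.Z +
        CH F.q F.c₂ (fun w => ((F.v₁ w, F.C₂ w), F.Z w)) :=
    CH_chain F.hq F.c₂ (fun w => (F.v₁ w, F.C₂ w)) F.Z
  have b7 : CH F.q F.c₂ (fun w => (F.v3 w, (F.t w, F.s w, F.tr w), F.Z w)) ≤
      CH F.q F.c₂ (fun w => ((F.v₁ w, F.C₂ w), F.Z w)) := by
    refine CH_mono_cond F.hq ?_
    intro w w' hw hw' h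
    simp only [Cf.v3, Prod.mk.injEq] at h ⊢
    exact ⟨⟨h.1.2.1, C₂_det F hw hw' h.1.2.2 h.2.2 h.2.1.2.2⟩, h.2.2⟩
  have b8 : CH F.q (fun w => (F.P w, (F.v₁ w, F.C₂ w))) F.Z =
      CH F.q (fun w => (F.v₁ w, F.C₂ w)) F.Z +
        CH F.q F.P (fun w => ((F.v₁ w, F.C₂ w), F.Z w)) :=
    CH_chain F.hq F.P (fun w => (F.v₁ w, F.C₂ w)) F.Z
  have b9 : CH F.q F.P (fun w => ((F.v₁ w, F.C₂ w), F.Z w)) ≤ F.rh := by
    have c1 : CH F.q F.P (fun w => ((F.v₁ w, F.C₂ w), F.Z w)) ≤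
        CH F.q F.t (fun w => ((F.v₁ w, F.C₂ w), F.Z w)) := by
      refine CH_mono_left F.hq ?_
      intro w w' hw hw' h
      simp only [Prod.mk.injEq] at h
      exact P_det F hw hw' h.2.1.1 h.2.2 h.1
    have c2 : CH F.q F.t (fun w => ((F.v₁ w, F.C₂ w), F.Z w)) ≤ F.rh := by
      refine CH_mono_cond F.hq ?_
      intro w w' _ _ h
      simp only [Prod.mk.injEq] at h ⊢
      exact ⟨h.1.1, h.1.2, h.2⟩
    exact c1.trans c2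
  have b10 : CH F.q (fun w => (F.v₁ w, (F.P w, F.C₂ w))) F.Z =
      CH F.q (fun w => (F.P w, F.C₂ w)) F.Z +
        CH F.q F.v₁ (fun w => ((F.P w, F.C₂ w), F.Z w)) :=
    CH_chain F.hq F.v₁ (fun w => (F.P w, F.C₂ w)) F.Z
  have b11 : CH F.q (fun w => (F.v₁ w, (F.P w, F.C₂ w))) F.Z ≤
      CH F.q (fun w => (F.P w, (F.v₁ w, F.C₂ w))) F.Z := by
    refine CH_mono_left F.hq ?_
    intro w w' _ _ h
    simp only [Prod.mk.injEq] at h ⊢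
    exact ⟨h.1.2.1, h.1.1, h.1.2.2⟩
  have b12 := hok.sym
  have b13 := hok.cv
  rw [add_mul C1 C2]
  linarith

end Pool.LQ
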